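import Mathlib
import Pool.Agent.QPB.DeepB

open Finset
open scoped Classical

namespace Pool.Agent.Results.MP_4fa23e_co.LogLogBound

/-- `G` has nested anticomplete pairs of depth `d` inside the set `X` of vertices: for `d = 0`
this means that `X` is nonempty; for `d + 1` it means that `X` contains two disjoint sets `A` and
`B` with no edge of `G` between them, each inducing a connected subgraph, such that `G` has nested
anticomplete pairs of depth `d` inside `A` and inside `B`. (This needs at least `2 ^ d` vertices.) -/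
def NestedPairs {V : Type} (G : SimpleGraph V) : ℕ → Set V → Prop
  | 0, X => X.Nonempty
  | d + 1, X => ∃ A ⊆ X, ∃ B ⊆ X, (G.induce A).Connected ∧ (G.induce B).Connected ∧
      Disjoint A B ∧ (∀ a ∈ A, ∀ b ∈ B, ¬ G.Adj a b) ∧ NestedPairs G d A ∧ NestedPairs G d B

lemma nested_of_deep {V : Type} [Fintype V] (G : SimpleGraph V) (d : ℕ) (X : Finset V)
    (h : Pool.Agent.QPB.DeepF G d X) : NestedPairs G d (X : Set V) := by
  induction d generalizing X with
  | zero =>
    obtain ⟨x, hx⟩ := h
    exact ⟨x, hx⟩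
  | succ d ih =>
    obtain ⟨A, hA, B, hB, h1, h2, h3, h4, h5, h6⟩ := h
    refine ⟨(A : Set V), by exact_mod_cast hA, (B : Set V), by exact_mod_cast hB,
      Pool.Agent.QPB.conn_induce G h1 h5.nonempty, Pool.Agent.QPB.conn_induce G h2 h6.nonempty,
      by exact_mod_cast h3, fun a ha b hb => h4 a ha b hb, ih A h5, ih B h6⟩

theorem result : ∀ t : ℕ, ∃ C : ℕ, ∀ (V : Type) [Fintype V] (G : SimpleGraph V),
    IsEmpty (SimpleGraph.pathGraph t ↪g G) → 2 ≤ G.cliqueNum →
      ∀ d : ℕ, 1 ≤ d → (Fintype.card V < 2 ^ d ∨ ¬ NestedPairs G d Set.univ) →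
        G.chromaticNumber ≤
          ((G.cliqueNum ^ (C * (Nat.log 2 G.cliqueNum + Nat.log 2 d)) : ℕ) : ℕ∞) := by
  intro t
  obtain ⟨C, hC⟩ := Pool.Agent.QPB.deep_bound t
  refine ⟨C, ?_⟩
  intro V _ G hfree h2 d hd hdeep
  rw [SimpleGraph.chromaticNumber_le_iff_colorable]
  refine hC V G hfree h2 d hd ?_
  intro h
  rcases hdeep with h3 | h3
  · have h4 := h.card
    rw [Finset.card_univ] at h4
    omega
  · apply h3
    have h4 := nested_of_deep G d Finset.univ h
    rwa [Finset.coe_univ] at h4

end Pool.Agent.Results.MP_4fa23e_co.LogLogBound
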