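import Mathlib
import Pool.Agent.QPB.Lam
import Pool.Agent.QPB.Six
import Pool.Agent.Helper20.Dense.TrivPerf

open Finset
open scoped Classical

namespace Pool.Agent.Results.MP_4fa23e_co.QuasiPolyP6

/-- The class of `{P_t, F}`-free graphs is quasi-polynomially chi-bounded: for some `C` every
finite graph `G` without an induced `P_t` and without an induced `F` satisfies
`χ(G) ≤ ω(G) ^ (C (⌊log₂ ω(G)⌋ + 1))`. -/
def QuasiBounded (t : ℕ) {U : Type} (F : SimpleGraph U) : Prop :=
  ∃ C : ℕ, ∀ (V : Type) [Fintype V] (G : SimpleGraph V),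
    IsEmpty (SimpleGraph.pathGraph t ↪g G) → IsEmpty (F ↪g G) →
      G.Colorable (G.cliqueNum ^ (C * (Nat.log 2 G.cliqueNum + 1)))

/-- The graph obtained from `F` by adding five vertices `c 0, ..., c 4` (`c i = inl i`), where
`c 0 - c 1 - c 2 - c 3 - c 4` is an induced path, `c 0` is adjacent to all vertices of `F`, and
the other `c i` are adjacent to no vertex of `F`. For `F` a single vertex this is `P_6`. -/
def addPath5 {U : Type} (F : SimpleGraph U) : SimpleGraph (Fin 5 ⊕ U) where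
  Adj x y := match x, y with
    | Sum.inl i, Sum.inl j => i.val + 1 = j.val ∨ j.val + 1 = i.val
    | Sum.inl i, Sum.inr _ => i = 0
    | Sum.inr _, Sum.inl i => i = 0
    | Sum.inr a, Sum.inr b => F.Adj a b
  symm := ⟨by
    rintro (a | a) (b | b) h
    · exact h.symm
    · exact h
    · exact h
    · exact F.adj_symm h⟩
  loopless := ⟨by
    rintro (a | a) h
    · simp only at h
      omega
    · exact F.loopless.irrefl a h⟩

/-- The finite graphs built from graphs without induced `P_4` and `C_4` by disjoint unions and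
the operation `addPath5`. -/
inductive Built : {U : Type} → SimpleGraph U → Prop
  | base {U : Type} [Fintype U] (F : SimpleGraph U) :
      IsEmpty (SimpleGraph.pathGraph 4 ↪g F) → IsEmpty (SimpleGraph.cycleGraph 4 ↪g F) → Built F
  | sum {U₁ U₂ : Type} (F₁ : SimpleGraph U₁) (F₂ : SimpleGraph U₂) :
      Built F₁ → Built F₂ → Built (F₁ ⊕g F₂)
  | path {U : Type} (F : SimpleGraph U) : Built F → Built (addPath5 F)

lemma log_le {x C : ℕ} (hx : 2 ≤ x) : C * (Nat.log 2 x + 1) ≤ 2 * C * Nat.log 2 x := by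
  have h1 : 1 ≤ Nat.log 2 x := Nat.log_pos (by norm_num) hx
  nlinarith [Nat.mul_le_mul_left C h1]

theorem path5_bounded {t : ℕ} {U : Type} (F : SimpleGraph U) (h : QuasiBounded t F) :
    QuasiBounded t (addPath5 F) :=
  Pool.Agent.QPB.quasi_lam h

theorem built_bounded (t : ℕ) {U : Type} (F : SimpleGraph U) (h : Built F) :
    QuasiBounded t F := by
  induction h with
  | base F h4 hc4 =>
    exact Pool.Agent.QPB.quasi_of_poly
      (Pool.Agent.Helper20.Dense.poly_trivPerf t _ _ F le_rfl h4 hc4)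
  | sum F₁ F₂ _ _ h₁ h₂ => exact Pool.Agent.QPB.quasi_sum h₁ h₂
  | path F _ h => exact path5_bounded F h

theorem result :
    (∃ C : ℕ, ∀ (V : Type) [Fintype V] (G : SimpleGraph V),
      IsEmpty (SimpleGraph.pathGraph 6 ↪g G) → 2 ≤ G.cliqueNum →
        G.chromaticNumber ≤ ((G.cliqueNum ^ (C * Nat.log 2 G.cliqueNum) : ℕ) : ℕ∞)) ∧
    (∀ (t : ℕ) (U : Type) (F : SimpleGraph U), QuasiBounded t F →
      QuasiBounded t (addPath5 F)) ∧
    (∀ (t : ℕ) (U₁ U₂ : Type) (F₁ : SimpleGraph U₁) (F₂ : SimpleGraph U₂),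
      QuasiBounded t F₁ → QuasiBounded t F₂ → QuasiBounded t (F₁ ⊕g F₂)) ∧
    (∀ (t : ℕ) (U : Type) (F : SimpleGraph U), Built F → QuasiBounded t F) := by
  refine ⟨?_, ?_, ?_, ?_⟩
  · obtain ⟨C, hC⟩ := Pool.Agent.QPB.six
    refine ⟨2 * C, ?_⟩
    intro V _ G hfree h2
    rw [SimpleGraph.chromaticNumber_le_iff_colorable]
    exact (hC V G hfree).mono (Nat.pow_le_pow_right (by omega) (log_le h2))
  · intro t U F h
    exact path5_bounded F h
  · intro t U₁ U₂ F₁ F₂ h₁ h₂
    exact Pool.Agent.QPB.quasi_sum h₁ h₂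
  · intro t U F h
    exact built_bounded t F h

end Pool.Agent.Results.MP_4fa23e_co.QuasiPolyP6
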